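import Mathlib

/-!
# Positive primitive formulas, the formulas that generate pp types in `add 𝒜`, chain conditions
-/

set_option autoImplicit false

namespace Pool.Agent.H101R.PP

/-- An `n`-ary pp formula `∃ y, A y = B x` over `R`, with `l` equations and `m` bound variables. -/
structure PPF (R : Type) (n : ℕ) where
  /-- the number of equations -/
  l : ℕ
  /-- the number of bound variables -/
  m : ℕ
  /-- the matrix of the bound variables -/
  A : Fin l → Fin m → R
  /-- the matrix of the free variables -/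
  B : Fin l → Fin n → R

variable {R : Type} [Ring R] {n : ℕ}

/-- The tuple `x` satisfies the formula. -/
def Sat (φ : PPF R n) {M : Type} [AddCommGroup M] [Module R M] (x : Fin n → M) : Prop :=
  ∃ y : Fin φ.m → M, ∀ i, ∑ j, φ.A i j • y j = ∑ j, φ.B i j • x j

/-- `φ ≤ ψ`: in every module the solutions of `φ` are solutions of `ψ`. -/
def Le (φ ψ : PPF R n) : Prop :=
  ∀ (M : ModuleCat.{0} R) (x : Fin n → M), Sat φ x → Sat ψ x

/-- `φ` generates the pp type of the tuple `x`. -/
def Generates (φ : PPF R n) {M : Type} [AddCommGroup M] [Module R M] (x : Fin n → M) : Prop :=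
  Sat φ x ∧ ∀ ψ : PPF R n, Sat ψ x → Le φ ψ

/-- `M` is a direct summand of a finite direct sum of members of the class `𝒜`. -/
def InAdd (𝒜 : ModuleCat.{0} R → Prop) (M : ModuleCat.{0} R) : Prop :=
  ∃ (k : ℕ) (F : Fin k → ModuleCat.{0} R), (∀ j, 𝒜 (F j)) ∧
    ∃ (i : M →ₗ[R] (∀ j, F j)) (p : (∀ j, F j) →ₗ[R] M), ∀ x, p (i x) = x

/-- The `n`-ary formulas that generate the pp type of some tuple in some module of `add 𝒜`. -/
def Gam (𝒜 : ModuleCat.{0} R → Prop) (n : ℕ) (φ : PPF R n) : Prop :=
  ∃ M : ModuleCat.{0} R, InAdd 𝒜 M ∧ ∃ x : Fin n → M, Generates φ x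

/-- The descending chain condition on the `n`-ary formulas of the class. -/
def DCC (𝒜 : ModuleCat.{0} R → Prop) (n : ℕ) : Prop :=
  ∀ φ : ℕ → PPF R n, (∀ k, Gam 𝒜 n (φ k)) → (∀ k, Le (φ (k + 1)) (φ k)) →
    ∃ k0, ∀ k, k0 ≤ k → Le (φ k) (φ (k + 1))

lemma Sat.map {φ : PPF R n} {M M' : Type} [AddCommGroup M] [Module R M] [AddCommGroup M']
    [Module R M'] (f : M →ₗ[R] M') {x : Fin n → M} (h : Sat φ x) : Sat φ (fun i => f (x i)) := by
  obtain ⟨y, hy⟩ := h
  refine ⟨fun j => f (y j), fun i => ?_⟩
  have := congrArg f (hy i)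
  simpa only [map_sum, map_smul] using this

/-- A tuple in a finitely presented module has a free realization formula. -/
lemma exists_formula {M : Type} [AddCommGroup M] [Module R M] [Module.FinitePresentation R M]
    (x : Fin n → M) : ∃ ψ : PPF R n, ∀ (M' : Type) [AddCommGroup M'] [Module R M']
      (x' : Fin n → M'), Sat ψ x' ↔ ∃ f : M →ₗ[R] M', ∀ i, f (x i) = x' i := by
  obtain ⟨m, K, e, hK⟩ := Module.FinitePresentation.exists_fin R M
  obtain ⟨k, r, hr⟩ := Submodule.fg_iff_exists_fin_generating_family.mp hK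
  choose g hg using fun i => Submodule.Quotient.mk_surjective K (e (x i))
  refine ⟨⟨k + n, m, Fin.addCases r g, Fin.addCases (fun _ _ => 0)
    (fun i j => if i = j then 1 else 0)⟩, ?_⟩
  intro M' _ _ x'
  constructor
  · rintro ⟨y, hy⟩
    have h1 : ∀ i, ∑ j, r i j • y j = 0 := by
      intro i
      have := hy (Fin.castAdd n i)
      simpa using this
    have h2 : ∀ i, ∑ j, g i j • y j = x' i := by
      intro i
      have := hy (Fin.natAdd k i)
      simpa using this
    let L : (Fin m → R) →ₗ[R] M' := Fintype.linearCombination R y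
    have hL : ∀ v, L v = ∑ j, v j • y j := fun v => Fintype.linearCombination_apply R y v
    have hKL : K ≤ LinearMap.ker L := by
      rw [← hr, Submodule.span_le]
      rintro _ ⟨i, rfl⟩
      rw [SetLike.mem_coe, LinearMap.mem_ker, hL, h1]
    refine ⟨(K.liftQ L hKL).comp e.toLinearMap, fun i => ?_⟩
    rw [LinearMap.comp_apply, LinearEquiv.coe_coe, ← hg, Submodule.liftQ_apply, hL, h2]
  · rintro ⟨f, hf⟩
    let L : (Fin m → R) →ₗ[R] M' := f.comp (e.symm.toLinearMap.comp K.mkQ)
    have hL : ∀ v, ∑ j, v j • L (Pi.single j 1) = L v := by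
      intro v
      conv_rhs => rw [pi_eq_sum_univ' v]
      rw [map_sum]
      refine Finset.sum_congr rfl fun j _ => ?_
      rw [map_smul]
    refine ⟨fun j => L (Pi.single j 1), fun i => ?_⟩
    refine Fin.addCases (fun i => ?_) (fun i => ?_) i
    · simp only [Fin.addCases_left, zero_smul, Finset.sum_const_zero]
      rw [hL]
      have : r i ∈ K := by
        rw [← hr]
        exact Submodule.subset_span ⟨i, rfl⟩
      simp [L, (Submodule.Quotient.mk_eq_zero K).mpr this]
    · simp only [Fin.addCases_right, ite_smul, one_smul, zero_smul, Finset.sum_ite_eq,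
        Finset.mem_univ, if_true]
      rw [hL, ← hf]
      simp [L, hg]

end Pool.Agent.H101R.PP
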