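import Mathlib
import Pool.Agent.H101R.PP.Defs

/-!
# The ring and the module of the counterexample
-/

set_option autoImplicit false

namespace Pool.Agent.H101R.PP

/-- sequences -/
abbrev S : Type := ℕ → ℚ

/-- eventually constant sequences -/
def R0 : Subalgebra ℚ S where
  carrier := {f | ∃ c, ∃ N : ℕ, ∀ n, N ≤ n → f n = c}
  mul_mem' := by
    rintro a b ⟨c, N, h⟩ ⟨d, M, h'⟩
    refine ⟨c * d, max N M, fun n hn => ?_⟩
    rw [Pi.mul_apply, h n (le_trans (le_max_left _ _) hn), h' n (le_trans (le_max_right _ _) hn)]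
  add_mem' := by
    rintro a b ⟨c, N, h⟩ ⟨d, M, h'⟩
    refine ⟨c + d, max N M, fun n hn => ?_⟩
    rw [Pi.add_apply, h n (le_trans (le_max_left _ _) hn), h' n (le_trans (le_max_right _ _) hn)]
  algebraMap_mem' := fun r => ⟨r, 0, fun n _ => rfl⟩

/-- the ambient ring -/
abbrev Amb : Type := Module.End ℚ (S × S) × R0

/-- the ring -/
def RR : Subring Amb where
  carrier := {T | ∀ p : S × S, (T.1 p).2 = (T.2 : S) * p.2}
  mul_mem' := by
    rintro a b ha hb p
    change (a.1 (b.1 p)).2 = ((a.2 : S) * (b.2 : S)) * p.2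
    rw [ha, hb, mul_assoc]
  one_mem' := fun p => (one_mul p.2).symm
  add_mem' := by
    rintro a b ha hb p
    change (a.1 p).2 + (b.1 p).2 = ((a.2 : S) + (b.2 : S)) * p.2
    rw [ha, hb, add_mul]
  zero_mem' := fun p => (zero_mul p.2).symm
  neg_mem' := by
    rintro a ha p
    change - (a.1 p).2 = (-(a.2 : S)) * p.2
    rw [ha, neg_mul]

lemma RR_spec (ρ : RR) (p : S × S) : (ρ.1.1 p).2 = (ρ.1.2 : S) * p.2 := ρ.2 p

/-- the sequence `0, 1, 2, ...` -/
def th : S := fun n => (n : ℚ)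

/-- the module -/
def BB : Type := S × (R0 × R0)

instance : AddCommGroup BB := inferInstanceAs (AddCommGroup (S × (R0 × R0)))
instance : Module ℚ BB := inferInstanceAs (Module ℚ (S × (R0 × R0)))

/-- constructor -/
def mkB (u : S) (x y : R0) : BB := (u, (x, y))
/-- first coordinate -/
def uu (b : BB) : S := b.1
/-- second coordinate -/
def xx (b : BB) : R0 := b.2.1
/-- third coordinate -/
def yy (b : BB) : R0 := b.2.2

@[simp] lemma uu_mk (u : S) (x y : R0) : uu (mkB u x y) = u := rfl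
@[simp] lemma xx_mk (u : S) (x y : R0) : xx (mkB u x y) = x := rfl
@[simp] lemma yy_mk (u : S) (x y : R0) : yy (mkB u x y) = y := rfl
@[simp] lemma uu_add (a b : BB) : uu (a + b) = uu a + uu b := rfl
@[simp] lemma xx_add (a b : BB) : xx (a + b) = xx a + xx b := rfl
@[simp] lemma yy_add (a b : BB) : yy (a + b) = yy a + yy b := rfl
@[simp] lemma uu_zero : uu 0 = 0 := rfl
@[simp] lemma xx_zero : xx 0 = 0 := rfl
@[simp] lemma yy_zero : yy 0 = 0 := rfl
@[simp] lemma uu_qsmul (c : ℚ) (b : BB) : uu (c • b) = c • uu b := rfl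
@[simp] lemma xx_qsmul (c : ℚ) (b : BB) : xx (c • b) = c • xx b := rfl
@[simp] lemma yy_qsmul (c : ℚ) (b : BB) : yy (c • b) = c • yy b := rfl

lemma BB_ext {a b : BB} (h1 : uu a = uu b) (h2 : xx a = xx b) (h3 : yy a = yy b) : a = b := by
  obtain ⟨u, x, y⟩ := a
  obtain ⟨u', x', y'⟩ := b
  simp only [uu, xx, yy] at h1 h2 h3
  rw [h1, h2, h3]

/-- the pairing with `(th, -1)` -/
def dt (b : BB) : S := (xx b : S) * th - (yy b : S)

lemma dt_apply (b : BB) (j : ℕ) : dt b j = (xx b : S) j * j - (yy b : S) j := rfl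

lemma dt_add (a b : BB) : dt (a + b) = dt a + dt b := by
  simp only [dt, xx_add, yy_add]
  push_cast
  ring

@[simp] lemma dt_zero : dt 0 = 0 := by simp [dt]

instance : SMul RR BB := ⟨fun ρ b => mkB (ρ.1.1 (uu b, dt b)).1 (ρ.1.2 * xx b) (ρ.1.2 * yy b)⟩

@[simp] lemma uu_smul (ρ : RR) (b : BB) : uu (ρ • b) = (ρ.1.1 (uu b, dt b)).1 := rfl
@[simp] lemma xx_smul (ρ : RR) (b : BB) : xx (ρ • b) = ρ.1.2 * xx b := rfl
@[simp] lemma yy_smul (ρ : RR) (b : BB) : yy (ρ • b) = ρ.1.2 * yy b := rfl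

lemma dt_smul (ρ : RR) (b : BB) : dt (ρ • b) = (ρ.1.2 : S) * dt b := by
  simp only [dt, xx_smul, yy_smul]
  push_cast
  ring

instance : Module RR BB where
  one_smul b := BB_ext rfl (one_mul _) (one_mul _)
  mul_smul ρ σ b := by
    refine BB_ext ?_ (mul_assoc _ _ _) (mul_assoc _ _ _)
    have h : (uu (σ • b), dt (σ • b)) = σ.1.1 (uu b, dt b) := by
      refine Prod.ext rfl ?_
      change dt (σ • b) = _
      rw [dt_smul, RR_spec]
    rw [uu_smul, uu_smul ρ, h]
    rfl
  smul_zero ρ := by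
    refine BB_ext ?_ (mul_zero _) (mul_zero _)
    rw [uu_smul, uu_zero, dt_zero]
    have : ((0 : S), (0 : S)) = 0 := rfl
    rw [this, map_zero]
    rfl
  smul_add ρ a b := by
    refine BB_ext ?_ (mul_add _ _ _) (mul_add _ _ _)
    rw [uu_smul, uu_add, uu_add, dt_add]
    have : (uu a + uu b, dt a + dt b) = (uu a, dt a) + (uu b, dt b) := rfl
    rw [this, map_add]
    rfl
  add_smul ρ σ b := BB_ext rfl (add_mul _ _ _) (add_mul _ _ _)
  zero_smul b := BB_ext rfl (zero_mul _) (zero_mul _)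

/-- scalars in the ring -/
def sc (c : ℚ) : RR := ⟨(c • LinearMap.id, c • 1), fun p => by
  change c • p.2 = (c • (1 : S)) * p.2
  rw [smul_mul_assoc, one_mul]⟩

lemma sc_smul (c : ℚ) (b : BB) : sc c • b = c • b := by
  refine BB_ext rfl ?_ ?_
  · change (c • (1 : R0)) * xx b = c • xx b
    rw [smul_mul_assoc, one_mul]
  · change (c • (1 : R0)) * yy b = c • yy b
    rw [smul_mul_assoc, one_mul]

lemma map_q {n : ℕ} (h : (Fin n → BB) →ₗ[RR] BB) (c : ℚ) (b : Fin n → BB) :
    h (c • b) = c • h b := by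
  have : c • b = sc c • b := by
    funext i
    exact (sc_smul c (b i)).symm
  rw [this, map_smul, sc_smul]

lemma map_q1 (h : BB →ₗ[RR] BB) (c : ℚ) (b : BB) : h (c • b) = c • h b := by
  rw [← sc_smul, map_smul, sc_smul]

/-- the operators that only have a first row -/
def up (G : (S × S) →ₗ[ℚ] S) : RR := ⟨(LinearMap.prod G 0, 0), fun p => by
  change (0 : S) = (0 : S) * p.2
  rw [zero_mul]⟩

lemma up_smul (G : (S × S) →ₗ[ℚ] S) (b : BB) : up G • b = mkB (G (uu b, dt b)) 0 0 :=
  BB_ext rfl (zero_mul _) (zero_mul _)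

/-- the characteristic sequence of a point -/
def de (j : ℕ) : R0 := ⟨fun n => if n = j then 1 else 0, 0, j + 1, fun n hn => by
  change (if n = j then (1 : ℚ) else 0) = 0
  rw [if_neg (by omega)]⟩

/-- cut out one coordinate -/
def cut (j : ℕ) : RR := ⟨(LinearMap.prod 0 ((LinearMap.mulLeft ℚ ((de j : R0) : S)).comp
  (LinearMap.snd ℚ S S)), de j), fun _ => rfl⟩

lemma cut_smul (j : ℕ) (b : BB) : cut j • b = mkB 0 (de j * xx b) (de j * yy b) := rfl

/-- elements of the module that vanish at a coordinate are mapped to such elements -/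
lemma support_map (h : BB →ₗ[RR] BB) (j : ℕ) (b : BB) (h1 : (xx b : S) j = 0)
    (h2 : (yy b : S) j = 0) : (xx (h b) : S) j = 0 ∧ (yy (h b) : S) j = 0 := by
  have h3 : cut j • b = 0 := by
    rw [cut_smul]
    refine BB_ext rfl ?_ ?_
    · apply Subtype.ext
      funext n
      change (if n = j then 1 else 0) * (xx b : S) n = 0
      by_cases hn : n = j
      · rw [hn, h1, mul_zero]
      · rw [if_neg hn, zero_mul]
    · apply Subtype.ext
      funext n
      change (if n = j then 1 else 0) * (yy b : S) n = 0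
      by_cases hn : n = j
      · rw [hn, h2, mul_zero]
      · rw [if_neg hn, zero_mul]
  have h4 : cut j • h b = 0 := by rw [← map_smul, h3, map_zero]
  rw [cut_smul] at h4
  constructor
  · have h5 : de j * xx (h b) = 0 := congrArg xx h4
    have h6 := congrFun (congrArg Subtype.val h5) j
    have h7 : (if j = j then (1 : ℚ) else 0) * (xx (h b) : S) j = 0 := h6
    rwa [if_pos rfl, one_mul] at h7
  · have h5 : de j * yy (h b) = 0 := congrArg yy h4
    have h6 := congrFun (congrArg Subtype.val h5) j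
    have h7 : (if j = j then (1 : ℚ) else 0) * (yy (h b) : S) j = 0 := h6
    rwa [if_pos rfl, one_mul] at h7

/-- the map `(u, x, y) ↦ (u, θ x - y)` -/
def mu : BB →ₗ[ℚ] S × S where
  toFun b := (uu b, dt b)
  map_add' a b := by rw [dt_add]; rfl
  map_smul' c b := by
    refine Prod.ext rfl ?_
    change dt (c • b) = c • dt b
    funext j
    simp only [dt_apply, xx_qsmul, yy_qsmul, Pi.smul_apply, smul_eq_mul]
    change (c * (xx b : S) j) * j - c * (yy b : S) j = _
    ring

/-- every endomorphism acts as a scalar after `mu` -/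
lemma scalar (h : BB →ₗ[RR] BB) : ∃ c : ℚ, ∀ b, mu (h b) = c • mu b := by
  -- the action on `(w, 0, 0)`
  have h1 : ∀ w : S, h (mkB w 0 0) = mkB (uu (h (mkB w 0 0))) 0 0 := by
    intro w
    have h2 : up (LinearMap.fst ℚ S S) • mkB w 0 0 = mkB w 0 0 := by
      rw [up_smul]; rfl
    conv_lhs => rw [← h2]
    rw [map_smul, up_smul]
    rfl
  have key : ∀ (G : (S × S) →ₗ[ℚ] S) (b : BB), uu (h (mkB (G (mu b)) 0 0)) = G (mu (h b)) := by
    intro G b
    have h3 : h (up G • b) = up G • h b := map_smul _ _ _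
    rw [up_smul, up_smul] at h3
    have h4 := congrArg uu h3
    exact h4
  -- the functional `ev j` in the first coordinate, times a fixed sequence
  let G1 : ℕ → S → ((S × S) →ₗ[ℚ] S) := fun j w =>
    (LinearMap.toSpanSingleton ℚ S w).comp ((LinearMap.proj j).comp (LinearMap.fst ℚ S S))
  let G2 : ℕ → S → ((S × S) →ₗ[ℚ] S) := fun j w =>
    (LinearMap.toSpanSingleton ℚ S w).comp ((LinearMap.proj j).comp (LinearMap.snd ℚ S S))
  have hG1 : ∀ j w p, G1 j w p = p.1 j • w := fun j w p => rfl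
  have hG2 : ∀ j w p, G2 j w p = p.2 j • w := fun j w p => rfl
  set b0 : BB := mkB 1 0 0 with hb0
  set c : ℚ := uu (h b0) 0 with hc
  have hk : ∀ w : S, uu (h (mkB w 0 0)) = c • w := by
    intro w
    have h5 := key (G1 0 w) b0
    rw [hG1, hG1] at h5
    have h6 : (mu b0).1 0 = 1 := rfl
    rw [h6, one_smul] at h5
    rw [h5]
    rfl
  refine ⟨c, fun b => ?_⟩
  have e1 : ∀ j, (mu (h b)).1 j = c * (mu b).1 j := by
    intro j
    have h5 := key (G1 j 1) b
    rw [hG1, hG1, hk] at h5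
    have h6 := congrFun h5 0
    simpa using h6.symm
  have e2 : ∀ j, (mu (h b)).2 j = c * (mu b).2 j := by
    intro j
    have h5 := key (G2 j 1) b
    rw [hG2, hG2, hk] at h5
    have h6 := congrFun h5 0
    simpa using h6.symm
  exact Prod.ext (funext e1) (funext e2)

end Pool.Agent.H101R.PP
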