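import Mathlib
import Pool.Agent.H101R.PP.Mod

/-!
# The module is finitely presented
-/

set_option autoImplicit false

namespace Pool.Agent.H101R.PP

/-- first generator -/
def g1 : BB := mkB 0 1 0
/-- second generator -/
def g2 : BB := mkB 0 0 1

lemma dt_g1 : dt g1 = th := by
  funext j
  rw [dt_apply]
  change (1 : ℚ) * j - 0 = j
  ring

lemma dt_g2 : dt g2 = -1 := by
  funext j
  rw [dt_apply]
  change (0 : ℚ) * j - 1 = -1
  ring

/-- the presentation -/
def pres : (RR × RR) →ₗ[RR] BB :=
  LinearMap.coprod (LinearMap.toSpanSingleton RR BB g1) (LinearMap.toSpanSingleton RR BB g2)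

lemma pres_apply (a b : RR) : pres (a, b) = a • g1 + b • g2 := rfl

/-- diagonal operators on the first coordinate -/
def di (t : S →ₗ[ℚ] S) : RR := up (t.comp (LinearMap.fst ℚ S S))
/-- off-diagonal operators -/
def of (g : S →ₗ[ℚ] S) : RR := up (g.comp (LinearMap.snd ℚ S S))

lemma up_mul (F : (S × S) →ₗ[ℚ] S) (ρ : RR) : up F * ρ = up (F.comp ρ.1.1) := by
  apply Subtype.ext
  refine Prod.ext ?_ (zero_mul _)
  apply LinearMap.ext
  intro p
  rfl

/-- the map `v ↦ v 0 • θ` -/
def q1 : S →ₗ[ℚ] S := (LinearMap.toSpanSingleton ℚ S th).comp (LinearMap.proj 0)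
/-- the map `v ↦ v - v 0 • 1` -/
def q2 : S →ₗ[ℚ] S := LinearMap.id - (LinearMap.toSpanSingleton ℚ S 1).comp (LinearMap.proj 0)

lemma q1_apply (v : S) : q1 v = v 0 • th := rfl
lemma q2_apply (v : S) : q2 v = v - v 0 • (1 : S) := rfl

/-- relations -/
def k1 : RR × RR := (di LinearMap.id, 0)
def k2 : RR × RR := (0, di LinearMap.id)
def k3 : RR × RR := (of LinearMap.id, of q1)
def k4 : RR × RR := (0, of q2)

lemma of_smul (g : S →ₗ[ℚ] S) (b : BB) : of g • b = mkB (g (dt b)) 0 0 := up_smul _ _
lemma di_smul (g : S →ₗ[ℚ] S) (b : BB) : di g • b = mkB (g (uu b)) 0 0 := up_smul _ _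

lemma mem1 : k1 ∈ LinearMap.ker pres := by
  rw [LinearMap.mem_ker, k1, pres_apply, show (0 : RR) • g2 = 0 from zero_smul RR g2, add_zero,
    di_smul]
  rfl

lemma mem2 : k2 ∈ LinearMap.ker pres := by
  rw [LinearMap.mem_ker, k2, pres_apply, show (0 : RR) • g1 = 0 from zero_smul RR g1, zero_add,
    di_smul]
  rfl

lemma mem3 : k3 ∈ LinearMap.ker pres := by
  rw [LinearMap.mem_ker, k3, pres_apply, of_smul, of_smul, dt_g1, dt_g2]
  refine BB_ext ?_ (add_zero _) (add_zero _)
  rw [uu_add, uu_mk, uu_mk, q1_apply, uu_zero]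
  funext j
  simp

lemma mem4 : k4 ∈ LinearMap.ker pres := by
  rw [LinearMap.mem_ker, k4, pres_apply, show (0 : RR) • g1 = 0 from zero_smul RR g1, zero_add,
    of_smul, dt_g2, q2_apply]
  refine BB_ext ?_ rfl rfl
  funext j
  simp

lemma ker_eq : Submodule.span RR ({k1, k2, k3, k4} : Set (RR × RR)) = LinearMap.ker pres := by
  apply le_antisymm
  · rw [Submodule.span_le]
    intro k hk
    rcases hk with rfl | rfl | rfl | rfl
    · exact mem1
    · exact mem2
    · exact mem3
    · exact mem4
  · rintro ⟨a, b⟩ hab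
    rw [LinearMap.mem_ker, pres_apply] at hab
    have hx : a.1.2 = 0 := by
      have h := congrArg xx hab
      have h' : a.1.2 * 1 + b.1.2 * 0 = 0 := h
      simpa using h'
    have hy : b.1.2 = 0 := by
      have h := congrArg yy hab
      have h' : a.1.2 * 0 + b.1.2 * 1 = 0 := h
      simpa using h'
    have hu : (a.1.1 (0, th)).1 + (b.1.1 (0, -1)).1 = 0 := by
      have h := congrArg uu hab
      rw [uu_add, uu_smul, uu_smul, dt_g1, dt_g2] at h
      exact h
    -- components
    let t1 : S →ₗ[ℚ] S := (LinearMap.fst ℚ S S).comp (a.1.1.comp (LinearMap.inl ℚ S S))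
    let t2 : S →ₗ[ℚ] S := (LinearMap.fst ℚ S S).comp (b.1.1.comp (LinearMap.inl ℚ S S))
    let s1 : S →ₗ[ℚ] S := (LinearMap.fst ℚ S S).comp (a.1.1.comp (LinearMap.inr ℚ S S))
    let s2 : S →ₗ[ℚ] S := (LinearMap.fst ℚ S S).comp (b.1.1.comp (LinearMap.inr ℚ S S))
    have hs : s1 th = s2 1 := by
      have h1 : s1 th + s2 (-1) = 0 := hu
      rw [map_neg] at h1
      exact add_neg_eq_zero.mp h1
    have ha : a = di t1 * di LinearMap.id + di s1 * of LinearMap.id := by
      rw [di, di, of, di, up_mul, up_mul]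
      apply Subtype.ext
      refine Prod.ext ?_ ?_
      · apply LinearMap.ext
        intro p
        refine Prod.ext ?_ ?_
        · change (a.1.1 p).1 = (a.1.1 (p.1, 0)).1 + (a.1.1 (0, p.2)).1
          rw [← Prod.fst_add, ← map_add]
          congr 2
          simp
        · rw [RR_spec, hx]
          change (0 : S) * p.2 = 0 + 0
          rw [zero_mul, add_zero]
      · rw [hx]
        change (0 : R0) = 0 + 0
        rw [add_zero]
    have hb : b = di t2 * di LinearMap.id + di s1 * of q1 + di s2 * of q2 := by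
      rw [di, di, of, di, of, di, up_mul, up_mul, up_mul]
      apply Subtype.ext
      refine Prod.ext ?_ ?_
      · apply LinearMap.ext
        intro p
        refine Prod.ext ?_ ?_
        · change (b.1.1 p).1 = (b.1.1 (p.1, 0)).1 + s1 (q1 p.2) + s2 (q2 p.2)
          rw [q1_apply, q2_apply, map_smul, map_sub, map_smul, hs, add_assoc]
          rw [add_sub_cancel]
          change (b.1.1 p).1 = (b.1.1 (p.1, 0)).1 + (b.1.1 (0, p.2)).1
          rw [← Prod.fst_add, ← map_add]
          congr 2
          simp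
        · rw [RR_spec, hy]
          change (0 : S) * p.2 = 0 + 0 + 0
          rw [zero_mul, add_zero, add_zero]
      · rw [hy]
        change (0 : R0) = 0 + 0 + 0
        rw [add_zero, add_zero]
    have hsum : (a, b) = di t1 • k1 + di t2 • k2 + di s1 • k3 + di s2 • k4 := by
      refine Prod.ext ?_ ?_
      · change a = di t1 * di LinearMap.id + di t2 * 0 + di s1 * of LinearMap.id + di s2 * 0
        rw [mul_zero, mul_zero, add_zero, add_zero]
        exact ha
      · change b = di t1 * 0 + di t2 * di LinearMap.id + di s1 * of q1 + di s2 * of q2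
        rw [mul_zero, zero_add]
        exact hb
    rw [hsum]
    refine Submodule.add_mem _ (Submodule.add_mem _ (Submodule.add_mem _ ?_ ?_) ?_) ?_
    · exact Submodule.smul_mem _ _ (Submodule.subset_span (by simp))
    · exact Submodule.smul_mem _ _ (Submodule.subset_span (by simp))
    · exact Submodule.smul_mem _ _ (Submodule.subset_span (by simp))
    · exact Submodule.smul_mem _ _ (Submodule.subset_span (by simp))

/-- lifting elements of `R0` to the ring -/
def lf (r : R0) : RR := ⟨(LinearMap.prod 0 ((LinearMap.mulLeft ℚ (r : S)).comp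
  (LinearMap.snd ℚ S S)), r), fun _ => rfl⟩

lemma lf_smul (r : R0) (b : BB) : lf r • b = mkB 0 (r * xx b) (r * yy b) := rfl

lemma pres_surj : Function.Surjective pres := by
  intro b
  refine ⟨(lf (xx b), lf (yy b) + of ((LinearMap.toSpanSingleton ℚ S (-uu b)).comp
    (LinearMap.proj 0))), ?_⟩
  rw [pres_apply, add_smul, lf_smul, lf_smul, of_smul, dt_g2]
  refine BB_ext ?_ ?_ ?_
  · rw [uu_add, uu_add, uu_mk, uu_mk, uu_mk]
    change (0 : S) + (0 + (-1 : ℚ) • (-uu b)) = uu b
    simp
  · change xx b * 1 + (yy b * 0 + 0) = xx b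
    simp
  · change xx b * 0 + (yy b * 1 + 0) = yy b
    simp

instance finPres : Module.FinitePresentation RR BB := by
  refine Module.finitePresentation_of_surjective pres pres_surj ?_
  rw [← ker_eq]
  exact Submodule.fg_span (Set.toFinite _)

end Pool.Agent.H101R.PP
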