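import Mathlib
import Pool.Agent.H101R.PP.Pres

/-!
# The unary chain condition holds
-/

set_option autoImplicit false

namespace Pool.Agent.H101R.PP

/-- the endomorphisms concentrated in one coordinate -/
def eta (j : ℕ) (p q : ℚ) : BB →ₗ[RR] BB where
  toFun b := mkB 0 ((p * (xx b : S) j + q * (yy b : S) j) • de j)
    (((p * (xx b : S) j + q * (yy b : S) j) * j) • de j)
  map_add' a b := by
    refine BB_ext (add_zero _).symm ?_ ?_
    · apply Subtype.ext
      funext n
      change (p * ((xx a : S) j + (xx b : S) j) + q * ((yy a : S) j + (yy b : S) j)) *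
        (if n = j then (1 : ℚ) else 0) =
        (p * (xx a : S) j + q * (yy a : S) j) * (if n = j then (1 : ℚ) else 0) +
        (p * (xx b : S) j + q * (yy b : S) j) * (if n = j then (1 : ℚ) else 0)
      ring
    · apply Subtype.ext
      funext n
      change ((p * ((xx a : S) j + (xx b : S) j) + q * ((yy a : S) j + (yy b : S) j)) * j) *
        (if n = j then (1 : ℚ) else 0) =
        ((p * (xx a : S) j + q * (yy a : S) j) * j) * (if n = j then (1 : ℚ) else 0) +
        ((p * (xx b : S) j + q * (yy b : S) j) * j) * (if n = j then (1 : ℚ) else 0)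
      ring
  map_smul' ρ b := by
    rw [RingHom.id_apply]
    have h0 : dt (mkB 0 ((p * (xx b : S) j + q * (yy b : S) j) • de j)
        (((p * (xx b : S) j + q * (yy b : S) j) * j) • de j)) = 0 := by
      funext n
      rw [dt_apply, xx_mk, yy_mk]
      change ((p * (xx b : S) j + q * (yy b : S) j) * (if n = j then (1 : ℚ) else 0)) * n -
        ((p * (xx b : S) j + q * (yy b : S) j) * j) * (if n = j then (1 : ℚ) else 0) = 0
      by_cases hn : n = j
      · rw [if_pos hn, hn]; ring
      · rw [if_neg hn]; ring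
    refine BB_ext ?_ ?_ ?_
    · rw [uu_smul, uu_mk, uu_mk, h0]
      have : ((0 : S), (0 : S)) = 0 := rfl
      rw [this, map_zero]
      rfl
    · apply Subtype.ext
      funext n
      change (p * ((ρ.1.2 : S) j * (xx b : S) j) + q * ((ρ.1.2 : S) j * (yy b : S) j)) *
        (if n = j then (1 : ℚ) else 0) = (ρ.1.2 : S) n *
        ((p * (xx b : S) j + q * (yy b : S) j) * (if n = j then (1 : ℚ) else 0))
      by_cases hn : n = j
      · rw [if_pos hn, hn]; ring
      · rw [if_neg hn]; ring
    · apply Subtype.ext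
      funext n
      change ((p * ((ρ.1.2 : S) j * (xx b : S) j) + q * ((ρ.1.2 : S) j * (yy b : S) j)) * j) *
        (if n = j then (1 : ℚ) else 0) = (ρ.1.2 : S) n *
        (((p * (xx b : S) j + q * (yy b : S) j) * j) * (if n = j then (1 : ℚ) else 0))
      by_cases hn : n = j
      · rw [if_pos hn, hn]; ring
      · rw [if_neg hn]; ring

/-- scalars as endomorphisms -/
def scl (c : ℚ) : BB →ₗ[RR] BB where
  toFun b := c • b
  map_add' a b := smul_add _ _ _
  map_smul' ρ b := by
    rw [RingHom.id_apply]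
    refine BB_ext ?_ ?_ ?_
    · rw [uu_qsmul, uu_smul, uu_smul, uu_qsmul]
      have h1 : dt (c • b) = c • dt b := congrArg Prod.snd (mu.map_smul c b)
      have h2 : (c • uu b, c • dt b) = c • (uu b, dt b) := rfl
      rw [h1, h2, map_smul]
      rfl
    · rw [xx_qsmul, xx_smul, xx_smul, xx_qsmul, mul_smul_comm]
    · rw [yy_qsmul, yy_smul, yy_smul, yy_qsmul, mul_smul_comm]

/-- the images of a tuple under all homomorphisms to the module -/
def VV {n : ℕ} (b : Fin n → BB) : Submodule ℚ BB where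
  carrier := {v | ∃ h : (Fin n → BB) →ₗ[RR] BB, h b = v}
  add_mem' := by
    rintro _ _ ⟨h, rfl⟩ ⟨k, rfl⟩
    exact ⟨h + k, rfl⟩
  zero_mem' := ⟨0, rfl⟩
  smul_mem' := by
    rintro c _ ⟨h, rfl⟩
    exact ⟨(scl c).comp h, rfl⟩

lemma VV_map {n : ℕ} {b : Fin n → BB} {v : BB} (hv : v ∈ VV b) (f : BB →ₗ[RR] BB) :
    f v ∈ VV b := by
  obtain ⟨h, rfl⟩ := hv
  exact ⟨f.comp h, rfl⟩

/-- the special elements -/
def nu (j : ℕ) : BB := mkB 0 (de j) ((j : ℚ) • de j)

lemma nu_mem {n : ℕ} {b : Fin n → BB} {v : BB} (hv : v ∈ VV b) (j : ℕ)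
    (h : (xx v : S) j ≠ 0 ∨ (yy v : S) j ≠ 0) : nu j ∈ VV b := by
  rcases h with h | h
  · have h1 := VV_map hv (eta j ((xx v : S) j)⁻¹ 0)
    have h2 : eta j ((xx v : S) j)⁻¹ 0 v = nu j := by
      change mkB 0 ((((xx v : S) j)⁻¹ * (xx v : S) j + 0 * (yy v : S) j) • de j)
        (((((xx v : S) j)⁻¹ * (xx v : S) j + 0 * (yy v : S) j) * j) • de j) = nu j
      rw [inv_mul_cancel₀ h, zero_mul, add_zero, one_smul, one_mul]
      rfl
    rwa [h2] at h1
  · have h1 := VV_map hv (eta j 0 ((yy v : S) j)⁻¹)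
    have h2 : eta j 0 ((yy v : S) j)⁻¹ v = nu j := by
      change mkB 0 ((0 * (xx v : S) j + ((yy v : S) j)⁻¹ * (yy v : S) j) • de j)
        (((0 * (xx v : S) j + ((yy v : S) j)⁻¹ * (yy v : S) j) * j) • de j) = nu j
      rw [inv_mul_cancel₀ h, zero_mul, zero_add, one_smul, one_mul]
      rfl
    rwa [h2] at h1

lemma decomp {n : ℕ} (h : (Fin n → BB) →ₗ[RR] BB) (b : Fin n → BB) :
    h b = ∑ j, (h.comp (LinearMap.single RR (fun _ => BB) j)) (b j) := by
  conv_lhs => rw [← Finset.univ_sum_single b]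
  rw [map_sum]
  rfl

lemma fd {n : ℕ} (b : Fin n → BB) : FiniteDimensional ℚ ((VV b).map mu) := by
  have hle : (VV b).map mu ≤ Submodule.span ℚ (Set.range fun j => mu (b j)) := by
    rintro _ ⟨_, ⟨h, rfl⟩, rfl⟩
    rw [decomp, map_sum]
    refine Submodule.sum_mem _ fun j _ => ?_
    obtain ⟨c, hc⟩ := scalar (h.comp (LinearMap.single RR (fun _ => BB) j))
    rw [hc]
    exact Submodule.smul_mem _ _ (Submodule.subset_span ⟨j, rfl⟩)
  have : FiniteDimensional ℚ (Submodule.span ℚ (Set.range fun j => mu (b j))) :=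
    FiniteDimensional.span_of_finite ℚ (Set.finite_range _)
  exact Submodule.finiteDimensional_of_le hle

lemma proj_mem {n : ℕ} (b : Fin n → BB) (j : Fin n) : b j ∈ VV b :=
  ⟨LinearMap.proj j, rfl⟩

/-- coordinates where all members of the tuple vanish -/
lemma vanish {n : ℕ} (b : Fin n → BB) (j : ℕ) (h1 : ∀ i, (xx (b i) : S) j = 0)
    (h2 : ∀ i, (yy (b i) : S) j = 0) (v : BB) (hv : v ∈ VV b) :
    (xx v : S) j = 0 ∧ (yy v : S) j = 0 := by
  obtain ⟨h, rfl⟩ := hv
  rw [decomp]
  have hsum : ∀ (s : Finset (Fin n)), (xx (∑ i ∈ s, (h.comp (LinearMap.single RR (fun _ => BB) i))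
      (b i)) : S) j = 0 ∧ (yy (∑ i ∈ s, (h.comp (LinearMap.single RR (fun _ => BB) i))
      (b i)) : S) j = 0 := by
    classical
    intro s
    induction s using Finset.induction_on with
    | empty => exact ⟨rfl, rfl⟩
    | insert a s ha ih =>
      rw [Finset.sum_insert ha]
      obtain ⟨e1, e2⟩ := support_map (h.comp (LinearMap.single RR (fun _ => BB) a)) j (b a)
        (h1 a) (h2 a)
      constructor
      · rw [xx_add]
        change (xx _ : S) j + (xx _ : S) j = 0
        rw [e1, ih.1, add_zero]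
      · rw [yy_add]
        change (yy _ : S) j + (yy _ : S) j = 0
        rw [e2, ih.2, add_zero]
  exact hsum _

/-- limits -/
lemma lim (r : R0) : ∃ c, ∃ N : ℕ, ∀ n, N ≤ n → (r : S) n = c := r.2

/-- an element killed by `mu` is a finite combination of the special elements -/
lemma ker_mu (v : BB) (hv : mu v = 0) : ∃ N : ℕ,
    v = ∑ j ∈ Finset.range N, ((xx v : S) j) • nu j := by
  have hu : uu v = 0 := congrArg Prod.fst hv
  have hd : ∀ n : ℕ, (xx v : S) n * n - (yy v : S) n = 0 := by
    intro n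
    have := congrFun (congrArg Prod.snd hv) n
    exact this
  obtain ⟨c, N, hc⟩ := lim (xx v)
  obtain ⟨d, M, hdd⟩ := lim (yy v)
  have hc0 : c = 0 := by
    have h1 := hd (max N M)
    have h2 := hd (max N M + 1)
    rw [hc _ (le_max_left _ _), hdd _ (le_max_right _ _)] at h1
    rw [hc _ (le_trans (le_max_left _ _) (Nat.le_succ _)),
      hdd _ (le_trans (le_max_right _ _) (Nat.le_succ _))] at h2
    push_cast at h1 h2
    linarith
  have hx0 : ∀ n, N ≤ n → (xx v : S) n = 0 := fun n hn => by rw [hc n hn, hc0]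
  have hy : ∀ n, (yy v : S) n = (xx v : S) n * n := fun n => by linarith [hd n]
  have hsum : ∀ s : Finset ℕ, uu (∑ j ∈ s, ((xx v : S) j) • nu j) = 0 ∧
      (∀ n, (xx (∑ j ∈ s, ((xx v : S) j) • nu j) : S) n = if n ∈ s then (xx v : S) n else 0) ∧
      (∀ n, (yy (∑ j ∈ s, ((xx v : S) j) • nu j) : S) n =
        if n ∈ s then (xx v : S) n * n else 0) := by
    classical
    intro s
    induction s using Finset.induction_on with
    | empty => exact ⟨rfl, fun n => rfl, fun n => rfl⟩
    | insert a s ha ih =>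
      obtain ⟨i1, i2, i3⟩ := ih
      rw [Finset.sum_insert ha]
      refine ⟨?_, fun n => ?_, fun n => ?_⟩
      · rw [uu_add, i1, uu_qsmul]
        change (xx v : S) a • (0 : S) + 0 = 0
        rw [smul_zero, add_zero]
      · rw [xx_add]
        change (xx v : S) a * (if n = a then (1 : ℚ) else 0) + (xx _ : S) n = _
        rw [i2]
        by_cases hn : n = a
        · subst hn
          rw [if_pos rfl, if_neg ha, if_pos (Finset.mem_insert_self _ _)]
          ring
        · rw [if_neg hn]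
          have : n ∈ insert a s ↔ n ∈ s := by simp [hn]
          simp only [this]
          ring
      · rw [yy_add]
        change (xx v : S) a * ((a : ℚ) * (if n = a then (1 : ℚ) else 0)) + (yy _ : S) n = _
        rw [i3]
        by_cases hn : n = a
        · subst hn
          rw [if_pos rfl, if_neg ha, if_pos (Finset.mem_insert_self _ _)]
          ring
        · rw [if_neg hn]
          have : n ∈ insert a s ↔ n ∈ s := by simp [hn]
          simp only [this]
          ring
  refine ⟨N, ?_⟩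
  obtain ⟨i1, i2, i3⟩ := hsum (Finset.range N)
  refine BB_ext (hu.trans i1.symm) ?_ ?_
  · apply Subtype.ext
    funext n
    rw [i2]
    by_cases hn : n < N
    · rw [if_pos (Finset.mem_range.mpr hn)]
    · rw [if_neg (fun h => hn (Finset.mem_range.mp h)), hx0 n (not_lt.mp hn)]
  · apply Subtype.ext
    funext n
    rw [i3, hy]
    by_cases hn : n < N
    · rw [if_pos (Finset.mem_range.mpr hn)]
    · rw [if_neg (fun h => hn (Finset.mem_range.mp h)), hx0 n (not_lt.mp hn), zero_mul]

lemma stab (d : ℕ → ℕ) (h : ∀ k, d (k + 1) ≤ d k) : ∃ k0, ∀ k, k0 ≤ k → d k = d k0 := by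
  have hanti : Antitone d := antitone_nat_of_succ_le h
  obtain ⟨k0, hk0⟩ := Nat.sInf_mem (Set.range_nonempty d)
  refine ⟨k0, fun k hk => le_antisymm (hanti hk) ?_⟩
  rw [hk0]
  exact Nat.sInf_le ⟨k, rfl⟩

/-- the chain condition on the subspaces `VV b` -/
theorem chain (n : ℕ → ℕ) (b : ∀ k, Fin (n k) → BB) (h : ∀ k, VV (b (k + 1)) ≤ VV (b k)) :
    ∃ k0, ∀ k, k0 ≤ k → VV (b k) = VV (b k0) := by
  have hanti : Antitone (fun k => VV (b k)) := antitone_nat_of_succ_le h
  -- the images stabilise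
  obtain ⟨k0, hk0⟩ := stab (fun k => Module.finrank ℚ ((VV (b k)).map mu)) (fun k => by
    have := fd (b k)
    exact Submodule.finrank_mono (Submodule.map_mono (h k)))
  have himg : ∀ k, k0 ≤ k → (VV (b k)).map mu = (VV (b k0)).map mu := by
    intro k hk
    have := fd (b k0)
    exact Submodule.eq_of_le_of_finrank_eq (Submodule.map_mono (hanti hk)) (hk0 k hk)
  -- the supports
  let T : ℕ → Set ℕ := fun k => {j | ∃ v ∈ VV (b k), (xx v : S) j ≠ 0 ∨ (yy v : S) j ≠ 0}
  have hT : ∀ k l, k ≤ l → T l ⊆ T k := by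
    rintro k l hkl j ⟨v, hv, hj⟩
    exact ⟨v, hanti hkl hv, hj⟩
  let C : Set ℕ := {j | ∃ w ∈ (VV (b k0)).map mu, w.2 j ≠ 0}
  have hC : ∀ k, k0 ≤ k → C ⊆ T k := by
    rintro k hk j ⟨w, hw, hj⟩
    rw [← himg k hk] at hw
    obtain ⟨v, hv, rfl⟩ := hw
    refine ⟨v, hv, ?_⟩
    by_contra hcon
    push Not at hcon
    apply hj
    change (xx v : S) j * j - (yy v : S) j = 0
    rw [hcon.1, hcon.2]
    ring
  have hfin : (T k0 \ C).Finite := by
    by_cases hlim : ∃ v ∈ VV (b k0), ∃ c d : ℚ, (c ≠ 0 ∨ d ≠ 0) ∧ ∃ N : ℕ, ∀ m, N ≤ m →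
        (xx v : S) m = c ∧ (yy v : S) m = d
    · obtain ⟨v, hv, c, d, hcd, N, hN⟩ := hlim
      -- at most one large coordinate vanishes
      have hsub : T k0 \ C ⊆ {j | j < N} ∪ {j : ℕ | N ≤ j ∧ c * j = d} := by
        rintro j ⟨-, hj⟩
        by_cases hjN : j < N
        · exact Or.inl hjN
        · right
          refine ⟨not_lt.mp hjN, ?_⟩
          by_contra hne
          apply hj
          refine ⟨mu v, ⟨v, hv, rfl⟩, ?_⟩
          change (xx v : S) j * j - (yy v : S) j ≠ 0
          rw [(hN j (not_lt.mp hjN)).1, (hN j (not_lt.mp hjN)).2]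
          exact sub_ne_zero.mpr hne
      refine Set.Finite.subset (Set.Finite.union (Set.finite_lt_nat N) ?_) hsub
      refine Set.Subsingleton.finite ?_
      rintro i ⟨_, hi⟩ j ⟨_, hj⟩
      have hc : c ≠ 0 := by
        intro hc
        rw [hc, zero_mul] at hi
        rcases hcd with h' | h'
        · exact h' hc
        · exact h' hi.symm
      have : (i : ℚ) = j := mul_left_cancel₀ hc (hi.trans hj.symm)
      exact_mod_cast this
    · push Not at hlim
      -- all members of the tuple have finite support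
      have h1 : ∀ i, ∃ N : ℕ, ∀ m, N ≤ m → (xx (b k0 i) : S) m = 0 ∧ (yy (b k0 i) : S) m = 0 := by
        intro i
        obtain ⟨c, N, hc⟩ := lim (xx (b k0 i))
        obtain ⟨d, M, hd⟩ := lim (yy (b k0 i))
        by_cases hcd : c ≠ 0 ∨ d ≠ 0
        · obtain ⟨m, hm, hm'⟩ := hlim (b k0 i) (proj_mem _ i) c d hcd (max N M)
          exact absurd (hd m (le_trans (le_max_right _ _) hm))
            (hm' (hc m (le_trans (le_max_left _ _) hm)))
        · push Not at hcd
          refine ⟨max N M, fun m hm => ⟨?_, ?_⟩⟩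
          · rw [hc m (le_trans (le_max_left _ _) hm), hcd.1]
          · rw [hd m (le_trans (le_max_right _ _) hm), hcd.2]
      choose N hN using h1
      refine Set.Finite.subset (Set.finite_lt_nat (∑ i, N i + 1)) ?_
      rintro j ⟨⟨v, hv, hj⟩, -⟩
      by_contra hcon
      have hle : ∀ i, N i ≤ j := by
        intro i
        have : N i ≤ ∑ i, N i := Finset.single_le_sum (fun _ _ => Nat.zero_le _)
          (Finset.mem_univ i)
        have h3 : ¬ j < ∑ i, N i + 1 := hcon
        omega
      have := vanish (b k0) j (fun i => (hN i j (hle i)).1) (fun i => (hN i j (hle i)).2) v hv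
      rcases hj with hj | hj
      · exact hj this.1
      · exact hj this.2
  obtain ⟨k1, hk1⟩ := stab (fun k => (T (k0 + k) \ C).ncard) (fun k => by
    refine Set.ncard_le_ncard ?_ ?_
    · rintro j ⟨hj, hj'⟩
      exact ⟨hT _ _ (by omega) hj, hj'⟩
    · exact hfin.subset (fun j hj => ⟨hT _ _ (by omega) hj.1, hj.2⟩))
  have hTeq : ∀ k, k0 + k1 ≤ k → T (k0 + k1) ⊆ T k := by
    intro k hk j hj
    by_cases hjC : j ∈ C
    · exact hC k (by omega) hjC
    · have hsub : T k \ C ⊆ T (k0 + k1) \ C := fun i hi => ⟨hT _ _ hk hi.1, hi.2⟩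
      have hfin' : (T (k0 + k1) \ C).Finite :=
        hfin.subset (fun i hi => ⟨hT _ _ (by omega) hi.1, hi.2⟩)
      have hcard := hk1 (k - k0) (by omega)
      have hkk : k0 + (k - k0) = k := by omega
      simp only [hkk] at hcard
      have heq := Set.eq_of_subset_of_ncard_le hsub (by rw [hcard]) hfin'
      have : j ∈ T k \ C := by rw [heq]; exact ⟨hj, hjC⟩
      exact this.1
  refine ⟨k0 + k1, fun k hk => le_antisymm (hanti hk) ?_⟩
  intro v hv
  have h1 : mu v ∈ (VV (b k)).map mu := by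
    rw [himg k (by omega), ← himg (k0 + k1) (by omega)]
    exact ⟨v, hv, rfl⟩
  obtain ⟨v', hv', hvv⟩ := h1
  have h2 : mu (v - v') = 0 := by rw [map_sub, hvv, sub_self]
  have h3 : v - v' ∈ VV (b (k0 + k1)) := Submodule.sub_mem _ hv (hanti hk hv')
  obtain ⟨N, hN⟩ := ker_mu _ h2
  have h4 : v - v' ∈ VV (b k) := by
    rw [hN]
    refine Submodule.sum_mem _ fun j _ => ?_
    by_cases hj : (xx (v - v') : S) j = 0
    · rw [hj, zero_smul]
      exact Submodule.zero_mem _
    · have h5 : j ∈ T k := hTeq k hk ⟨v - v', h3, Or.inl hj⟩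
      obtain ⟨w, hw, hwj⟩ := h5
      exact Submodule.smul_mem _ _ (nu_mem hw j hwj)
  have : v = (v - v') + v' := by abel
  rw [this]
  exact Submodule.add_mem _ h4 hv'

end Pool.Agent.H101R.PP
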